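import Mathlib
import Pool.Agent.Q154.EqHFractal

set_option autoImplicit false

/-!
# MP_601622_gt, question Q1: the answer is NO

There is a metric fractal `(K, 𝓕)` (with `𝓕` consisting of three contracting maps) that is not
equi-Hölder equivalent to any fractal in `ℓ₂`. In fact the compact metric space `K` admits no
map `h : K → H` into a real inner product space `H` of any dimension with
`c d(x,y)^α ≤ ‖h x - h y‖ ≤ C d(x,y)^α` for constants `c, C, α > 0`.

Construction: the points of level `i` are the numbers `0 ≤ a < 2^i`; the point `(i,a)` is sent by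
the maps `f₀, f₁` to `(i+1, 2a)`, `(i+1,2a+1)`; the third map is constant. As the scales decrease
fast enough these are contractions whatever the metrics on the single levels are, and the levels
are given (scaled) metrics of discrete tori `(ℤ/2^(k+2))^n` with the sup metric, which by
metric cotype (Mendel-Naor) do not embed uniformly in a snowflake fashion in a Hilbert space.
-/

namespace Pool.Agent.Results.MP_601622_gt.NoHilbertFractal

open Pool.Agent.Q154.EqH

/-- `f` is contracting: `Lip(f) < 1`. -/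
def IsContracting {X : Type*} [MetricSpace X] (f : X → X) : Prop :=
  ∃ q : NNReal, q < 1 ∧ LipschitzWith q f

/-- `(K, F)` is a metric fractal. -/
def IsMetricFractal (K : Type*) [MetricSpace K] (F : Set (K → K)) : Prop :=
  CompactSpace K ∧ F.Finite ∧ (∀ f ∈ F, IsContracting f) ∧ ⋃ f ∈ F, Set.range f = Set.univ

/-- `(K', F')` is a fractal in `X`: there is a finite family `G` of contracting self-maps of `X`
such that `K'` is a nonempty compact set with `K' = ⋃_{g ∈ G} g(K')` (hence the attractor of `G`)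
and `F'` is the family of the restrictions `g|_{K'}`, `g ∈ G`. -/
def IsFractalIn {X : Type*} [MetricSpace X] (K' : Set X) (F' : Set (K' → K')) : Prop :=
  K'.Nonempty ∧ IsCompact K' ∧ ∃ G : Set (X → X), G.Finite ∧ (∀ g ∈ G, IsContracting g) ∧
    (K' = ⋃ g ∈ G, g '' K') ∧
    F' = {f | ∃ g ∈ G, ∀ x : K', ((f x : K') : X) = g x}

/-- An equi-Hölder homeomorphism. -/
def IsEquiHolder {X Y : Type*} [MetricSpace X] [MetricSpace Y] (h : X ≃ₜ Y) : Prop :=
  ∃ c C α : ℝ, 0 < c ∧ 0 < C ∧ 0 < α ∧
    ∀ x y : X, c * dist x y ^ α ≤ dist (h x) (h y) ∧ dist (h x) (h y) ≤ C * dist x y ^ α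

/-- `(X, F)` and `(Y, F')` are equi-Hölder equivalent. -/
def EquiHolderEquivalent {X Y : Type*} [MetricSpace X] [MetricSpace Y] (F : Set (X → X))
    (F' : Set (Y → Y)) : Prop :=
  ∃ h : X ≃ₜ Y, IsEquiHolder h ∧ F' = {g | ∃ f ∈ F, g = h ∘ f ∘ h.symm}

/-- **MP_601622_gt, Q1: no.** There is a metric fractal `(K, F)` (with at most three maps) that is
not equi-Hölder equivalent to any fractal in `ℓ₂`. Moreover, no map of `K` into any real inner
product space satisfies a two-sided Hölder estimate with one exponent. -/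
theorem result :
    ∃ (K : Type) (_ : MetricSpace K) (F : Set (K → K)),
      IsMetricFractal K F ∧ F.ncard ≤ 3 ∧
      (∀ (K' : Set (lp (fun _ : ℕ => ℝ) 2)) (F' : Set (K' → K')), IsFractalIn K' F' →
        ¬ EquiHolderEquivalent F F') ∧
      (∀ (H : Type) [NormedAddCommGroup H] [InnerProductSpace ℝ H] (h : K → H) (c C α : ℝ),
        0 < c → 0 < C → 0 < α →
        ¬ ∀ x y : K, c * dist x y ^ α ≤ dist (h x) (h y) ∧ dist (h x) (h y) ≤ C * dist x y ^ α) := by
  refine ⟨KK, inferInstance, {ff 0, ff 1, fc}, ⟨inferInstance, ?_, ?_, ?_⟩, ?_, ?_, ?_⟩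
  · exact Set.toFinite _
  · intro f hf
    have h12 : (1 / 2 : NNReal) < 1 := by
      rw [← NNReal.coe_lt_coe]
      norm_num
    rcases hf with rfl | rfl | rfl
    · exact ⟨1 / 2, h12, ff_lip 0⟩
    · exact ⟨1 / 2, h12, ff_lip 1⟩
    · exact ⟨0, zero_lt_one, fc_lip⟩
  · rw [Set.eq_univ_iff_forall]
    intro x
    rw [Set.mem_iUnion₂]
    rcases cover x with ⟨b, y, hy⟩ | ⟨y, hy⟩
    · refine ⟨ff b, ?_, ⟨y, hy⟩⟩
      have hb : b = 0 ∨ b = 1 := by
        fin_cases b
        · exact Or.inl rfl
        · exact Or.inr rfl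
      rcases hb with rfl | rfl
      · exact Or.inl rfl
      · exact Or.inr (Or.inl rfl)
    · exact ⟨fc, Or.inr (Or.inr rfl), ⟨y, hy⟩⟩
  · refine (Set.ncard_insert_le _ _).trans ?_
    have h1 := Set.ncard_insert_le (ff 1) ({fc} : Set (KK → KK))
    rw [Set.ncard_singleton] at h1
    omega
  · rintro K' F' - ⟨h, ⟨c, C, α, hc, hC, hα, hh⟩, -⟩
    exact no_holder (fun x => ((h x : K') : lp (fun _ : ℕ => ℝ) 2)) c C α hc hC hα
      (fun x y => hh x y)
  · intro H _ _ h c C α hc hC hα hh
    exact no_holder h c C α hc hC hα hh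

end Pool.Agent.Results.MP_601622_gt.NoHilbertFractal
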